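import Mathlib
import Pool.Agent.H.MP_7de982_lc.Defs
import Pool.Agent.H.MP_7de982_lc.Main

namespace Pool.Agent.Results.MP_7de982_lc.UniformCoding

open Pool.Agent.H.MP_7de982_lc

universe u

/-- There are polynomials `P`, `Q`, `R` with rational coefficients such that every graph (any set
of vertices, any edge relation) has an existential coding by `P`, `Q`, `R` in some field of
characteristic `0`. -/
theorem result : ∃ (P : MvPolynomial (Fin 2) ℚ) (Q R : MvPolynomial (Fin 3) ℚ),
    ∀ (V : Type u) (E : V → V → Prop), ∃ (K : Type u) (_ : Field K) (_ : CharZero K)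
      (α : V → K), IsCoding E K P Q R α :=
  main

end Pool.Agent.Results.MP_7de982_lc.UniformCoding
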